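import Pool.Agent.Q140.LPV.Values

/-!
# Networks of differentiable functions do not compute the values of linear programs
-/

set_option autoImplicit false
set_option linter.unusedSectionVars false
set_option maxHeartbeats 1000000
set_option synthInstance.maxHeartbeats 200000

namespace Pool.Agent.Q140.LPV

variable {n : ℕ}

open MvPolynomial Topology Filter MeasureTheory
open Pool.Agent.Y531.Mul (FX PP ordr)
open Pool.Agent.Y531.San (sgn mat eval_sgn eval_PP_sgn lam sum_lam continuous_lam exists_boundary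
  Boundary)
open Pool.Agent.Y531.Snet (Network Rich Large Superposed)
open Pool.Agent.Y531.Smooth (ae_eval_ne_zero isMeagre_of_null)

/-- The networks with the larger class of gates. -/
theorem rich_main (c Δ : ℕ) : ∃ d q₀ n₀ : ℕ, 2 ≤ d ∧ ∀ n, n₀ ≤ n →
    ∀ χ : Equiv.Perm (Fin n) → ℝ, χ 1 ≠ 0 →
    (∀ σ : Equiv.Perm (Fin n), σ.IsCycle → σ.support.card = d → χ σ ≠ 0) →
    ∀ (t : Fin n) (s m : ℕ), s ≤ n ^ c → m ^ q₀ ≤ n →
    ∀ (P : Network (Fin n × Fin n) s Δ m d (Rich n c Δ q₀ s))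
      (f k : MvPolynomial (Fin n × Fin n) ℝ), f ≠ 0 → k ≠ 0 → ordr χ t k ≠ ordr χ t f →
      ¬ Large {x | ∃ y, P.Outputs x y ∧ y * eval x k = eval x f} := by
  obtain ⟨d, q₀, n₀, hd, H⟩ := mult_main (3 * c + 3) (Δ + Δ + 2)
  refine ⟨d, 4 * q₀, n₀ + 16 ^ q₀ + 2, hd, ?_⟩
  intro n hn χ hχ1 hχ t s m hs hm P f k hf hk hord hL
  have hn0 : n₀ ≤ n := (Nat.le_add_right _ _).trans ((Nat.le_add_right _ _).trans hn)
  have hn16 : 16 ^ q₀ ≤ n := (Nat.le_add_left _ _).trans ((Nat.le_add_right _ _).trans hn)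
  have hn2 : 2 ≤ n := (Nat.le_add_left _ _).trans hn
  have hS : Superposed n c Δ (4 * q₀) d f k := ⟨s, m, P, hs, hm, hL⟩
  obtain ⟨s', m', P', hs', hm', hP'⟩ := hS.exists_net hn16 hn2
  exact H n hn0 χ hχ1 hχ t s' m' hs' hm' P' f k hf hk hord hP'

/-- The set is null and meagre. -/
def Small {σ : Type} [Fintype σ] (S : Set (σ → ℝ)) : Prop := volume S = 0 ∧ IsMeagre S

theorem small_iff {σ : Type} [Fintype σ] {S : Set (σ → ℝ)} : Small S ↔ ¬ Large S := by
  rw [Small, Large]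
  tauto

theorem Small.mono {σ : Type} [Fintype σ] {S T : Set (σ → ℝ)} (h : Small T) (hST : S ⊆ T) :
    Small S := ⟨measure_mono_null hST h.1, h.2.mono hST⟩

theorem Small.union {σ : Type} [Fintype σ] {S T : Set (σ → ℝ)} (h : Small S) (h' : Small T) :
    Small (S ∪ T) := ⟨measure_union_null h.1 h'.1, h.2.union h'.2⟩

theorem Small.iUnion {σ : Type} [Fintype σ] {S : ℕ → Set (σ → ℝ)} (h : ∀ i, Small (S i)) :
    Small (⋃ i, S i) :=
  ⟨measure_iUnion_null fun i => (h i).1, isMeagre_iUnion fun i => (h i).2⟩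

theorem small_zero {σ : Type} [Fintype σ] [Nonempty σ] {k : MvPolynomial σ ℝ} (hk : k ≠ 0) :
    Small {x | eval x k = 0} := by
  have h1 := ae_eval_ne_zero hk
  exact ⟨measure_eq_zero_iff_ae_notMem.2 h1, isMeagre_of_null (continuous_eval k) h1⟩

/-- **The main theorem.** -/
theorem main (c Δ : ℕ) : ∃ d q n₀ : ℕ, ∀ n, n₀ ≤ n → ∀ s m : ℕ → ℕ,
    (∀ i, s i ≤ (n + 1) ^ c) → (∀ i, m i ^ q ≤ n + 1) →
    ∀ P : ∀ i, Network (Fin (n + 1) × Fin (n + 1)) (s i) Δ (m i) d
      (Rich (n + 1) c Δ q (s i)),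
    Small {x | ∃ i y, (P i).Outputs x y ∧ IsLeast (violations x) y} ∧
    Small {x | ∃ i y, (P i).Outputs x y ∧ IsLeast (values x) y} := by
  obtain ⟨d, q, n₀, _, H⟩ := rich_main c Δ
  refine ⟨d, q, n₀, ?_⟩
  intro n hn s m hs hm P
  have : Nonempty (Fin (n + 1) × Fin (n + 1)) := ⟨(0, 0)⟩
  have key : ∀ (k : MvPolynomial (Fin (n + 1) × Fin (n + 1)) ℝ)
      (V : (Fin (n + 1) × Fin (n + 1) → ℝ) → Set ℝ), k ≠ 0 →
      ordr (sgn (n + 1)) (Fin.last n) k = 0 →
      (∀ x y, eval x k ≠ 0 → IsLeast (V x) y → y * eval x k = eval x (FX (sgn (n + 1)))) →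
      Small {x | ∃ i y, (P i).Outputs x y ∧ IsLeast (V x) y} := by
    intro k V hk hord hV
    have h1 : ∀ i, Small {x | ∃ y, (P i).Outputs x y ∧
        y * eval x k = eval x (FX (sgn (n + 1)))} := fun i =>
      small_iff.2 (H (n + 1) (hn.trans (Nat.le_succ n)) (sgn (n + 1)) (sgn_ne_zero _ _)
        (fun σ _ _ => sgn_ne_zero _ σ) (Fin.last n) (s i) (m i) (hs i) (hm i) (P i) _ k
        (FX_sgn_ne_zero _) hk (by rw [hord]; exact ordr_FX.ne))
    refine ((small_zero hk).union (Small.iUnion h1)).mono ?_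
    rintro x ⟨i, y, hy, hl⟩
    by_cases hx : eval x k = 0
    · exact Or.inl hx
    · exact Or.inr (Set.mem_iUnion.2 ⟨i, y, hy, hV x y hx hl⟩)
  exact ⟨key _ _ (kpoly_ne_zero n) ordr_kpoly fun x y h1 h2 => least_violation h1 h2,
    key _ _ (neg_ne_zero.2 (PP_sgn_ne_zero _)) ordr_neg_PP fun x y h1 h2 => least_value h1 h2⟩

/-! ## There are open sets of instances with values -/

theorem lam_scale (u v : Fin (n + 1) → ℝ) (x : Fin (n + 1) × Fin (n + 1) → ℝ) (i : Fin (n + 1)) :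
    lam (fun p => u p.1 * x p * v p.2) i =
      (∏ j ∈ Finset.univ.erase (Fin.last n), v j) * lam x i * ∏ j ∈ Finset.univ.erase i, u j := by
  have hM : mat (fun p : Fin (n + 1) × Fin (n + 1) => u p.1 * x p * v p.2) =
      Matrix.diagonal u * mat x * Matrix.diagonal v := by
    ext i j
    rw [Matrix.mul_diagonal, Matrix.diagonal_mul]
    rfl
  rw [lam, hM, Matrix.adjugate_mul_distrib, Matrix.adjugate_mul_distrib, Matrix.adjugate_diagonal,
    Matrix.adjugate_diagonal, ← Matrix.mul_assoc, Matrix.mul_diagonal, Matrix.diagonal_mul]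
  rfl

theorem exists_pos (n : ℕ) : ∃ x : Fin (n + 1) × Fin (n + 1) → ℝ, ∀ i, 0 < lam x i := by
  classical
  obtain ⟨x, hx | hx, _⟩ := exists_boundary n
  · exact ⟨x, hx⟩
  · rcases Nat.eq_zero_or_pos n with h0 | h0
    · subst h0
      exfalso
      have h1 := hx (Fin.last 0)
      rw [lam] at h1
      have h2 : (mat x).adjugate = 1 := Matrix.adjugate_fin_one _
      rw [h2, Matrix.one_apply_eq] at h1
      linarith
    · have hne : (0 : Fin (n + 1)) ≠ Fin.last n := by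
        intro h
        have h1 := congrArg Fin.val h
        rw [Fin.val_zero, Fin.val_last] at h1
        omega
      refine ⟨fun p => (fun _ => (1 : ℝ)) p.1 * x p *
        (fun j : Fin (n + 1) => if j = 0 then (-1 : ℝ) else 1) p.2, fun i => ?_⟩
      rw [lam_scale (fun _ => (1 : ℝ)) (fun j : Fin (n + 1) => if j = 0 then (-1 : ℝ) else 1) x i]
      have h1 : ∏ j ∈ Finset.univ.erase (Fin.last n), (if j = (0 : Fin (n + 1)) then (-1 : ℝ) else 1)
          = -1 := by
        rw [Finset.prod_ite_eq' _ (0 : Fin (n + 1)) (fun _ => (-1 : ℝ)),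
          if_pos (Finset.mem_erase.2 ⟨hne, Finset.mem_univ _⟩)]
      rw [h1, Finset.prod_const_one]
      linarith [hx i]

theorem exists_neg (n : ℕ) : ∃ x : Fin (n + 1) × Fin (n + 1) → ℝ,
    (∀ i : Fin n, lam x i.castSucc < 0) ∧ 0 < lam x (Fin.last n) := by
  classical
  obtain ⟨x, hx⟩ := exists_pos n
  refine ⟨fun p => (fun j : Fin (n + 1) => if j = Fin.last n then (-1 : ℝ) else 1) p.1 * x p *
        (fun _ => (1 : ℝ)) p.2, fun i => ?_, ?_⟩
  · rw [lam_scale (fun j : Fin (n + 1) => if j = Fin.last n then (-1 : ℝ) else 1)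
        (fun _ => (1 : ℝ)) x, Finset.prod_ite_eq' _ (Fin.last n) (fun _ => (-1 : ℝ)),
      if_pos (Finset.mem_erase.2 ⟨(Fin.castSucc_lt_last i).ne', Finset.mem_univ _⟩),
      Finset.prod_const_one]
    linarith [hx i.castSucc]
  · rw [lam_scale (fun j : Fin (n + 1) => if j = Fin.last n then (-1 : ℝ) else 1)
        (fun _ => (1 : ℝ)) x, Finset.prod_ite_eq' _ (Fin.last n) (fun _ => (-1 : ℝ)),
      if_neg (fun h => (Finset.mem_erase.1 h).1 rfl), Finset.prod_const_one]
    linarith [hx (Fin.last n)]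

/-- **The instances with values contain nonempty open sets.** -/
theorem exists_open (n : ℕ) :
    (∃ U : Set (Fin (n + 1) × Fin (n + 1) → ℝ), IsOpen U ∧ U.Nonempty ∧
      ∀ x ∈ U, ∃ y, IsLeast (violations x) y) ∧
    ∃ U : Set (Fin (n + 1) × Fin (n + 1) → ℝ), IsOpen U ∧ U.Nonempty ∧
      ∀ x ∈ U, ∃ y, IsLeast (values x) y := by
  constructor
  · obtain ⟨x, hx⟩ := exists_pos n
    refine ⟨⋂ i, {x | 0 < lam x i}, isOpen_iInter_of_finite fun i =>
      isOpen_lt continuous_const (continuous_lam i), ⟨x, Set.mem_iInter.2 hx⟩, fun x hx =>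
        exists_least_violation fun i => Set.mem_iInter.1 hx i⟩
  · obtain ⟨x, hx, hx'⟩ := exists_neg n
    refine ⟨(⋂ i : Fin n, {x | lam x i.castSucc < 0}) ∩ {x | 0 < lam x (Fin.last n)},
      (isOpen_iInter_of_finite fun i => isOpen_lt (continuous_lam _) continuous_const).inter
      (isOpen_lt continuous_const (continuous_lam _)), ⟨x, Set.mem_iInter.2 hx, hx'⟩,
      fun x hx => exists_least_value (fun i => Set.mem_iInter.1 hx.1 i) hx.2⟩

end Pool.Agent.Q140.LPV
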