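import Pool.Agent.Q140.LPV.Mult

/-!
# The least violation of a system of inequalities and the optimal value of a linear program

The instances are the points `x` of `ℝ ^ ((n + 1) × (n + 1))`, read as the `n + 1` inequalities
`∑ j, x (i, j) z_j ≥ x (i, n)` in `n` unknowns.
-/

set_option autoImplicit false
set_option linter.unusedSectionVars false
set_option maxHeartbeats 1000000
set_option synthInstance.maxHeartbeats 200000

namespace Pool.Agent.Q140.LPV

open MvPolynomial Topology Filter MeasureTheory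
open Pool.Agent.Y531.Mul (FX PP RR bet bet_C bet_X bet_injective ordr ordr_pos_iff evr evr_apply
  evr_FX PP_ne_zero PP_congr algRF_inj RF gdet gdet_ne_zero FX_sign)
open Pool.Agent.Y531.San (sgn mat eval_sgn eval_PP_sgn lam sum_lam continuous_mat continuous_lam)
open Pool.Agent.Y531.Snet (Network Rich Large Superposed)

variable {n : ℕ}

/-- The numbers `t` such that the inequalities `∑ j, x (i, j) z_j ≥ x (i, n) - t` have a common
solution `z`. The smallest of them is the least possible value of the largest violation of the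
`n + 1` inequalities. -/
def violations (x : Fin (n + 1) × Fin (n + 1) → ℝ) : Set ℝ :=
  {t | ∃ z : Fin n → ℝ, ∀ i, x (i, Fin.last n) - t ≤ ∑ j : Fin n, x (i, j.castSucc) * z j}

/-- The values of the objective function `∑ j, x (n, j) z_j - x (n, n)` (the last row) at the
solutions `z` of the first `n` inequalities `∑ j, x (i, j) z_j ≥ x (i, n)`. -/
def values (x : Fin (n + 1) × Fin (n + 1) → ℝ) : Set ℝ :=
  {v | ∃ z : Fin n → ℝ, (∀ i : Fin n, x (i.castSucc, Fin.last n) ≤
    ∑ j : Fin n, x (i.castSucc, j.castSucc) * z j) ∧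
    v = ∑ j : Fin n, x (Fin.last n, j.castSucc) * z j - x (Fin.last n, Fin.last n)}

/-- The determinant of the matrix with the last column replaced by ones. -/
noncomputable def kpoly (n : ℕ) : MvPolynomial (Fin (n + 1) × Fin (n + 1)) ℝ :=
  (Matrix.of fun i j : Fin (n + 1) => if j = Fin.last n then
    (1 : MvPolynomial (Fin (n + 1) × Fin (n + 1)) ℝ) else X (i, j)).det

theorem eval_kpoly (x : Fin (n + 1) × Fin (n + 1) → ℝ) :
    eval x (kpoly n) = ∑ i, lam x i := by
  have h1 : eval x (kpoly n) = ((mat x).updateCol (Fin.last n) 1).det := by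
    rw [kpoly, RingHom.map_det]
    congr 1
    ext i j
    rw [RingHom.mapMatrix_apply, Matrix.map_apply, Matrix.of_apply, Matrix.updateCol_apply]
    split_ifs
    · rw [map_one]; rfl
    · rw [eval_X]; rfl
  rw [h1, ← Matrix.cramer_apply, Matrix.cramer_eq_adjugate_mulVec, Matrix.mulVec, dotProduct]
  exact Finset.sum_congr rfl fun i _ => by
    show (mat x).adjugate (Fin.last n) i * 1 = _
    rw [mul_one]; rfl

theorem kpoly_ne_zero (n : ℕ) : kpoly n ≠ 0 := by
  intro h0
  have h1 : eval (fun p : Fin (n + 1) × Fin (n + 1) => if p.1 = p.2 then (1 : ℝ) else 0)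
      (kpoly n) = 1 := by
    rw [kpoly, RingHom.map_det, Matrix.det_of_isUpperTriangular]
    · refine Finset.prod_eq_one fun i _ => ?_
      rw [RingHom.mapMatrix_apply, Matrix.map_apply, Matrix.of_apply]
      split_ifs
      · rw [map_one]
      · rw [eval_X, if_pos rfl]
    · intro i j hij
      have hij' : j < i := hij
      rw [RingHom.mapMatrix_apply, Matrix.map_apply, Matrix.of_apply,
        if_neg (hij'.trans_le (Fin.le_last i)).ne, eval_X, if_neg hij'.ne']
  rw [h0, map_zero] at h1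
  exact zero_ne_one h1

theorem sgn_ne_zero (n : ℕ) (σ : Equiv.Perm (Fin n)) : sgn n σ ≠ 0 := by
  rw [sgn]
  rcases Int.units_eq_one_or (Equiv.Perm.sign σ) with h | h <;> rw [h] <;> norm_num

theorem ordr_kpoly : ordr (sgn (n + 1)) (Fin.last n) (kpoly n) = 0 := by
  have h1 : bet ℝ (Fin.last n) (kpoly n) = Polynomial.C (kpoly n) := by
    rw [kpoly, RingHom.map_det, RingHom.map_det]
    congr 1
    ext1 i j
    rw [RingHom.mapMatrix_apply, Matrix.map_apply, RingHom.mapMatrix_apply, Matrix.map_apply,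
      Matrix.of_apply]
    split_ifs with h
    · rw [map_one, map_one]
    · rw [bet_X _ (fun h' => h (Prod.mk.inj h').2)]
  have h2 : evr (sgn (n + 1)) (Fin.last n) (kpoly n) ≠ 0 := by
    rw [evr_apply, h1, Polynomial.map_C, Polynomial.eval_C]
    intro h0
    exact kpoly_ne_zero n (algRF_inj (by rw [h0, map_zero]))
  by_contra h3
  exact h2 ((ordr_pos_iff _ _ (kpoly_ne_zero n)).1 (Nat.pos_of_ne_zero h3))

theorem PP_sgn_ne_zero (s : Fin n) : PP (sgn n) s ≠ 0 := PP_ne_zero _ _ (sgn_ne_zero n 1)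

theorem ordr_neg_PP : ordr (sgn (n + 1)) (Fin.last n) (-PP (sgn (n + 1)) (Fin.last n)) = 0 := by
  have h1 : bet ℝ (Fin.last n) (PP (sgn (n + 1)) (Fin.last n)) =
      Polynomial.C (PP (sgn (n + 1)) (Fin.last n)) :=
    (PP_congr _ _ (bet ℝ (Fin.last n)) Polynomial.C (bet_C _) (fun x hx => bet_X _ hx)).1
  have h2 : evr (sgn (n + 1)) (Fin.last n) (-PP (sgn (n + 1)) (Fin.last n)) ≠ 0 := by
    rw [map_neg, neg_ne_zero, evr_apply, h1, Polynomial.map_C, Polynomial.eval_C]
    intro h0
    exact PP_sgn_ne_zero _ (algRF_inj (by rw [h0, map_zero]))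
  by_contra h3
  exact h2 ((ordr_pos_iff _ _ (neg_ne_zero.2 (PP_sgn_ne_zero _))).1 (Nat.pos_of_ne_zero h3))

theorem FX_sgn_ne_zero (n : ℕ) : FX (sgn n) ≠ 0 := by
  have h1 : FX (sgn n) = gdet ℝ n := FX_sign ℝ n
  rw [h1]
  exact gdet_ne_zero

theorem ordr_FX : 0 < ordr (sgn (n + 1)) (Fin.last n) (FX (sgn (n + 1))) :=
  (ordr_pos_iff _ _ (FX_sgn_ne_zero _)).2 (evr_FX _ _ (PP_sgn_ne_zero _))

/-! ## The values -/

theorem sum_lam_sum (x : Fin (n + 1) × Fin (n + 1) → ℝ) (z : Fin n → ℝ) :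
    ∑ i, lam x i * ∑ j : Fin n, x (i, j.castSucc) * z j = 0 := by
  calc ∑ i, lam x i * ∑ j : Fin n, x (i, j.castSucc) * z j
      = ∑ i, ∑ j : Fin n, z j * (lam x i * x (i, j.castSucc)) := by
        refine Finset.sum_congr rfl fun i _ => ?_
        rw [Finset.mul_sum]
        exact Finset.sum_congr rfl fun j _ => by ring
    _ = ∑ j : Fin n, ∑ i, z j * (lam x i * x (i, j.castSucc)) := Finset.sum_comm
    _ = 0 := by
        refine Finset.sum_eq_zero fun j _ => ?_
        rw [← Finset.mul_sum, sum_lam, if_neg (Fin.castSucc_lt_last j).ne, mul_zero]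

theorem sum_lam_last (x : Fin (n + 1) × Fin (n + 1) → ℝ) :
    ∑ i, lam x i * x (i, Fin.last n) = (mat x).det := by
  rw [sum_lam, if_pos rfl]

/-- The point at which all violations are equal. -/
theorem exists_equal {x : Fin (n + 1) × Fin (n + 1) → ℝ} (h : ∑ i, lam x i ≠ 0) :
    ∃ (z : Fin n → ℝ) (t : ℝ), (∀ i, ∑ j : Fin n, x (i, j.castSucc) * z j = x (i, Fin.last n) - t) ∧
      t * ∑ i, lam x i = (mat x).det := by
  set N : Matrix (Fin (n + 1)) (Fin (n + 1)) ℝ := (mat x).updateCol (Fin.last n) 1 with hN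
  have hdet : N.det = ∑ i, lam x i := by
    rw [hN, ← Matrix.cramer_apply, Matrix.cramer_eq_adjugate_mulVec, Matrix.mulVec, dotProduct]
    exact Finset.sum_congr rfl fun i _ => by
      show (mat x).adjugate (Fin.last n) i * 1 = _
      rw [mul_one]; rfl
  have hu : IsUnit N.det := isUnit_iff_ne_zero.2 (by rw [hdet]; exact h)
  set u : Fin (n + 1) → ℝ := N⁻¹.mulVec (fun i => x (i, Fin.last n)) with huu
  have h1 : N.mulVec u = fun i => x (i, Fin.last n) := by
    rw [huu, Matrix.mulVec_mulVec, Matrix.mul_nonsing_inv _ hu, Matrix.one_mulVec]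
  have h2 : ∀ i, ∑ j : Fin n, x (i, j.castSucc) * u j.castSucc =
      x (i, Fin.last n) - u (Fin.last n) := by
    intro i
    have h3 := congrFun h1 i
    rw [Matrix.mulVec, dotProduct, Fin.sum_univ_castSucc] at h3
    have h4 : N i (Fin.last n) = 1 := by
      rw [hN, Matrix.updateCol_self]; rfl
    have h5 : ∀ j : Fin n, N i j.castSucc = x (i, j.castSucc) := fun j => by
      rw [hN, Matrix.updateCol_ne (Fin.castSucc_lt_last j).ne]; rfl
    rw [h4, one_mul] at h3
    simp only [h5] at h3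
    linarith
  refine ⟨fun j => u j.castSucc, u (Fin.last n), h2, ?_⟩
  have h3 := sum_lam_sum x (fun j => u j.castSucc)
  simp only [h2] at h3
  rw [← sum_lam_last, Finset.mul_sum]
  have h4 : ∑ i, lam x i * (x (i, Fin.last n) - u (Fin.last n)) =
      ∑ i, lam x i * x (i, Fin.last n) - ∑ i, u (Fin.last n) * lam x i := by
    rw [← Finset.sum_sub_distrib]
    exact Finset.sum_congr rfl fun i _ => by ring
  rw [h4] at h3
  linarith

/-- The least violation is a quotient of determinants. -/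
theorem least_violation {x : Fin (n + 1) × Fin (n + 1) → ℝ} {y : ℝ}
    (hk : eval x (kpoly n) ≠ 0) (hy : IsLeast (violations x) y) :
    y * eval x (kpoly n) = eval x (FX (sgn (n + 1))) := by
  rw [eval_kpoly] at hk ⊢
  rw [eval_sgn]
  obtain ⟨z₀, t, h1, h2⟩ := exists_equal hk
  obtain ⟨⟨z, hz⟩, hmin⟩ := hy
  have h3 : y ≤ t := hmin ⟨z₀, fun i => (h1 i).ge⟩
  have h4 : y ≤ 2 * y - t := by
    refine hmin ⟨fun j => 2 * z j - z₀ j, fun i => ?_⟩
    have h5 : ∑ j : Fin n, x (i, j.castSucc) * (2 * z j - z₀ j) =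
        2 * (∑ j : Fin n, x (i, j.castSucc) * z j) -
          ∑ j : Fin n, x (i, j.castSucc) * z₀ j := by
      rw [Finset.mul_sum, ← Finset.sum_sub_distrib]
      exact Finset.sum_congr rfl fun j _ => by ring
    rw [h5, h1 i]
    linarith [hz i]
  have h6 : y = t := by linarith
  rw [h6, h2]

/-- The vertex of the first `n` inequalities. -/
theorem exists_vertex {x : Fin (n + 1) × Fin (n + 1) → ℝ} (h : lam x (Fin.last n) ≠ 0) :
    ∃ z : Fin n → ℝ, ∀ i : Fin n, ∑ j : Fin n, x (i.castSucc, j.castSucc) * z j =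
      x (i.castSucc, Fin.last n) := by
  set A : Matrix (Fin n) (Fin n) ℝ := Matrix.of fun i j => x (i.castSucc, j.castSucc) with hA
  have hdet : A.det = lam x (Fin.last n) := by
    rw [lam, Matrix.adjugate_fin_succ_eq_det_submatrix]
    have h1 : (-1 : ℝ) ^ ((Fin.last n : ℕ) + (Fin.last n : ℕ)) = 1 := by
      rw [← two_mul, pow_mul]; norm_num
    rw [h1, one_mul]
    congr 1
    ext i j
    simp [hA, mat]
  have hu : IsUnit A.det := isUnit_iff_ne_zero.2 (by rw [hdet]; exact h)
  refine ⟨A⁻¹.mulVec (fun i => x (i.castSucc, Fin.last n)), fun i => ?_⟩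
  have h1 : A.mulVec (A⁻¹.mulVec (fun i => x (i.castSucc, Fin.last n))) =
      fun i : Fin n => x (i.castSucc, Fin.last n) := by
    rw [Matrix.mulVec_mulVec, Matrix.mul_nonsing_inv _ hu, Matrix.one_mulVec]
  exact congrFun h1 i

theorem vertex_value {x : Fin (n + 1) × Fin (n + 1) → ℝ} {z : Fin n → ℝ}
    (hz : ∀ i : Fin n, ∑ j : Fin n, x (i.castSucc, j.castSucc) * z j =
      x (i.castSucc, Fin.last n)) :
    (∑ j : Fin n, x (Fin.last n, j.castSucc) * z j - x (Fin.last n, Fin.last n)) *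
      -lam x (Fin.last n) = (mat x).det := by
  have h1 := sum_lam_sum x z
  have h2 := sum_lam_last x
  rw [Fin.sum_univ_castSucc] at h1 h2
  simp only [hz] at h1
  linear_combination h2 - h1

/-- The optimal value is a quotient of determinants. -/
theorem least_value {x : Fin (n + 1) × Fin (n + 1) → ℝ} {y : ℝ}
    (hk : eval x (-PP (sgn (n + 1)) (Fin.last n)) ≠ 0) (hy : IsLeast (values x) y) :
    y * eval x (-PP (sgn (n + 1)) (Fin.last n)) = eval x (FX (sgn (n + 1))) := by
  have hP : eval x (-PP (sgn (n + 1)) (Fin.last n)) = -lam x (Fin.last n) := by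
    rw [map_neg, eval_PP_sgn]; rfl
  rw [hP] at hk ⊢
  rw [eval_sgn]
  obtain ⟨z₀, h1⟩ := exists_vertex (neg_ne_zero.1 hk)
  obtain ⟨⟨z, hz, hv⟩, hmin⟩ := hy
  set t := ∑ j : Fin n, x (Fin.last n, j.castSucc) * z₀ j - x (Fin.last n, Fin.last n) with ht
  have h3 : y ≤ t := hmin ⟨z₀, fun i => (h1 i).ge, rfl⟩
  have h5 : ∀ i, ∑ j : Fin n, x (i, j.castSucc) * (2 * z j - z₀ j) =
      2 * (∑ j : Fin n, x (i, j.castSucc) * z j) -
        ∑ j : Fin n, x (i, j.castSucc) * z₀ j := by
    intro i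
    rw [Finset.mul_sum, ← Finset.sum_sub_distrib]
    exact Finset.sum_congr rfl fun j _ => by ring
  have h4 : y ≤ 2 * y - t := by
    refine hmin ⟨fun j => 2 * z j - z₀ j, fun i => ?_, ?_⟩
    · rw [h5, h1 i]
      linarith [hz i]
    · rw [h5, hv, ht]
      ring
  have h6 : y = t := by linarith
  rw [h6, ht]
  exact vertex_value h1

/-! ## The values exist on open sets -/

theorem exists_least_violation {x : Fin (n + 1) × Fin (n + 1) → ℝ} (h : ∀ i, 0 < lam x i) :
    ∃ y, IsLeast (violations x) y := by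
  have hpos : 0 < ∑ i, lam x i := Finset.sum_pos (fun i _ => h i) ⟨0, Finset.mem_univ _⟩
  obtain ⟨z₀, t, h1, h2⟩ := exists_equal hpos.ne'
  refine ⟨t, ⟨z₀, fun i => (h1 i).ge⟩, ?_⟩
  rintro t' ⟨z, hz⟩
  have h3 : ∑ i, lam x i * (x (i, Fin.last n) - t') ≤
      ∑ i, lam x i * ∑ j : Fin n, x (i, j.castSucc) * z j :=
    Finset.sum_le_sum fun i _ => mul_le_mul_of_nonneg_left (hz i) (h i).le
  rw [sum_lam_sum] at h3
  have h4 : ∑ i, lam x i * (x (i, Fin.last n) - t') =
      (mat x).det - t' * ∑ i, lam x i := by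
    rw [← sum_lam_last, Finset.mul_sum, ← Finset.sum_sub_distrib]
    exact Finset.sum_congr rfl fun i _ => by ring
  rw [h4, ← h2, ← sub_mul] at h3
  by_contra h5
  push Not at h5
  have h6 : 0 < (t - t') * ∑ i, lam x i := mul_pos (by linarith) hpos
  linarith

theorem exists_least_value {x : Fin (n + 1) × Fin (n + 1) → ℝ} (h : ∀ i : Fin n, lam x i.castSucc < 0)
    (h' : 0 < lam x (Fin.last n)) : ∃ y, IsLeast (values x) y := by
  obtain ⟨z₀, h1⟩ := exists_vertex h'.ne'
  refine ⟨_, ⟨z₀, fun i => (h1 i).ge, rfl⟩, ?_⟩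
  rintro v ⟨z, hz, rfl⟩
  have h2 := sum_lam_sum x z
  have h3 := sum_lam_sum x z₀
  rw [Fin.sum_univ_castSucc] at h2 h3
  have h4 : ∑ i : Fin n, lam x i.castSucc * ∑ j : Fin n, x (i.castSucc, j.castSucc) * z j ≤
      ∑ i : Fin n, lam x i.castSucc * ∑ j : Fin n, x (i.castSucc, j.castSucc) * z₀ j := by
    refine Finset.sum_le_sum fun i _ => ?_
    rw [h1 i]
    exact mul_le_mul_of_nonpos_left (hz i) (h i).le
  have h5 : lam x (Fin.last n) * ∑ j : Fin n, x (Fin.last n, j.castSucc) * z₀ j ≤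
      lam x (Fin.last n) * ∑ j : Fin n, x (Fin.last n, j.castSucc) * z j := by linarith
  have h6 := le_of_mul_le_mul_left h5 h'
  linarith

end Pool.Agent.Q140.LPV
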